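import Pool.Agent.H.MP_f63b47_lc.A

namespace Pool.Agent.Results.MP_f63b47_lc.Families
open Pool.Agent.Lib.CX

/-- the tree H_j: path 0, 1, …, j; pendant vertices j+1, j+2 at 0 and j+3, j+4 at j -/
def Hg (j : ℕ) : SimpleGraph (Fin (j + 5)) := SimpleGraph.fromRel fun u v =>
  (v.1 = u.1 + 1 ∧ v.1 ≤ j) ∨ (u.1 = 0 ∧ (v.1 = j + 1 ∨ v.1 = j + 2)) ∨ (u.1 = j ∧ (v.1 = j + 3 ∨ v.1 = j + 4))

theorem result (ι : Type) [Finite ι] (n : ι → ℕ) (F : ∀ i, SimpleGraph (Fin (n i)))
    (hF : ∀ i, (∃ j, 32 ≤ j ∧ (Hg j).IsContained (F i)) ∨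
      (∃ v, 5 ≤ ((F i).neighborSet v).ncard) ∨
      (∃ v, 33 ≤ {w | (F i).Reachable v w ∧ 3 ≤ ((F i).neighborSet w).ncard}.ncard) ∨
      ∃ v, ∃ c : (F i).Walk v v, c.IsCycle ∧ 33 ≤ c.length) :
    NPComplete fun a : {a : Gr // ∀ i, (F i).Free a.G} =>
      ∃ v, ∃ p : a.1.G.Walk v v, p.IsHamiltonianCycle := by
  refine ⟨Lib.helper7.ham_np.red ⟨Subtype.val, by fun_prop, fun _ => Iff.rfl⟩, ?_⟩
  obtain ⟨J0, hJ0⟩ := (Set.finite_range n).bddAbove
  have hn : ∀ i, n i ≤ J0 + 1 := fun i => (hJ0 ⟨i, rfl⟩).trans (by omega)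
  generalize hJ : J0 + 1 = J at hn
  have free : ∀ ψ i, (F i).Free (H.MP_2e8011_lc.gr ((0, 0, true, 0) : H.MP_2e8011_lc.W) J ψ).G := by
    rintro ψ i ⟨f0⟩
    rcases hF i with ⟨j, hj, ⟨f1⟩⟩ | ⟨v, hv⟩ | ⟨v, hv⟩ | ⟨v, c, hc, hL⟩
    · have hjJ : j ≤ J := by
        have := Fintype.card_le_of_injective _ f1.injective
        have := hn i
        simp only [Fintype.card_fin] at *
        omega
      let g := (mkGrIso _ _).toCopy.comp (f0.comp f1)
      let p : ℕ → _ := fun k => (g ⟨k % (j + 5), Nat.mod_lt _ (by omega)⟩).1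
      have adj : ∀ k < j + 5, ∀ l < j + 5, (l = k + 1 ∧ l ≤ j) ∨ (k = 0 ∧ (l = j + 1 ∨ l = j + 2)) ∨
          (k = j ∧ (l = j + 3 ∨ l = j + 4)) →
          Lib.helper7.NA (H.MP_2e8011_lc.es (0, 0, true, 0) J ψ) (p k) (p l) :=
        fun k hk l hl h => by
          have : (Hg j).Adj ⟨k % (j + 5), Nat.mod_lt _ (by omega)⟩
              ⟨l % (j + 5), Nat.mod_lt _ (by omega)⟩ := by
            simp only [Hg, SimpleGraph.fromRel_adj, Ne, Fin.ext_iff, Nat.mod_eq_of_lt hk,
              Nat.mod_eq_of_lt hl]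
            omega
          exact g.toHom.map_rel this
      refine H.MP_f63b47_lc.no_copy' hj hjJ p (fun k _ => (g _).2) (fun k hk l hl e => ?_)
        (fun k hk => adj _ (by omega) _ (by omega) (by omega))
        (adj _ (by omega) _ (by omega) (by omega)) (adj _ (by omega) _ (by omega) (by omega))
        (adj _ (by omega) _ (by omega) (by omega)) (adj _ (by omega) _ (by omega) (by omega))
      simpa [Nat.mod_eq_of_lt hk, Nat.mod_eq_of_lt hl] using g.injective (Subtype.ext e)
    · let g := (mkGrIso _ _).toCopy.comp f0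
      obtain ⟨s, hs, h⟩ := H.MP_f63b47_lc.four (g v).2
      have := Set.ncard_le_ncard_of_injOn (s := (F i).neighborSet v) (t := (s : Set _))
        (fun w => (g w).1) (fun w hw => h _ (g w).2 (g.toHom.map_rel hw))
        (fun a _ b _ e => g.injective (Subtype.ext e))
      rw [Set.ncard_coe_finset] at this
      omega
    · let g := (mkGrIso _ _).toCopy.comp f0
      have ne : ∀ {a b}, a ≠ b → (g a).1 ≠ (g b).1 := fun h e => h (g.injective (Subtype.ext e))
      have dg : ∀ w, 2 < ((F i).neighborSet w).ncard →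
          (g w).1.1 ∈ (0, 0, true, 0) :: (ψ.getD (g w).1.2.1
            ((0, 0, true, 0), (0, 0, true, 0), (0, 0, true, 0))).vars ∧
          J + 1 ≤ (g w).1.2.2 ∧ (g w).1.2.2 < J + 9 := fun w hw => by
        obtain ⟨a, ha, b, hb, c, hc, n1, n2, n3⟩ := (Set.two_lt_ncard).1 hw
        exact H.MP_f63b47_lc.deg3 (g w).2 (g a).2 (g b).2 (g c).2 (g.toHom.map_rel ha)
          (g.toHom.map_rel hb) (g.toHom.map_rel hc) (ne n1) (ne n2) (ne n3)
      obtain ⟨x, hx⟩ := Set.nonempty_of_ncard_ne_zero (by omega :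
        {w | (F i).Reachable v w ∧ 3 ≤ ((F i).neighborSet w).ncard}.ncard ≠ 0)
      have := Set.ncard_le_ncard_of_injOn
        (s := {w | (F i).Reachable v w ∧ 3 ≤ ((F i).neighborSet w).ncard})
        (t := (H.MP_f63b47_lc.zone (0, 0, true, 0) J ψ (g x).1 : Set _)) (fun w => (g w).1)
        (fun y hy => by
          obtain ⟨w, hw⟩ := (hx.1.symm.trans hy.1).exists_isPath
          have hl := hw.length_lt
          have := hn i
          rw [Fintype.card_fin] at hl
          have h := H.MP_f63b47_lc.in_zone (j := w.length) (by omega)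
            (fun k => (g (w.getVert k)).1) (fun k _ => (g _).2)
            (fun l hl => ne fun e => by
              have := hw.getVert_injOn (show l ≤ w.length by omega) hl e
              omega)
            (fun k hk => g.toHom.map_rel (w.adj_getVert_succ hk))
            (by simpa only [SimpleGraph.Walk.getVert_zero] using dg x hx.2)
            (by simpa only [SimpleGraph.Walk.getVert_length] using (dg y hy.2).2) w.length le_rfl
          simpa only [SimpleGraph.Walk.getVert_zero, SimpleGraph.Walk.getVert_length,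
            Finset.mem_coe] using h)
        (fun a _ b _ e => g.injective (Subtype.ext e))
      rw [Set.ncard_coe_finset] at this
      have := H.MP_f63b47_lc.zone_card ((0, 0, true, 0) : H.MP_2e8011_lc.W) J ψ (g x).1
      omega
    · let g := (mkGrIso _ _).toCopy.comp f0
      have lt : ∀ k, k % c.length < c.length := fun k => Nat.mod_lt _ (by omega)
      have hLJ : c.length ≤ J := by
        have := Set.ncard_le_ncard_of_injOn (s := (Finset.range c.length : Set ℕ))
          (t := Set.univ) c.getVert (fun _ _ => trivial) (hc.getVert_injOn'.mono fun a ha => by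
            simp at ha ⊢; omega)
        have := hn i
        simp only [Set.ncard_coe_finset, Finset.card_range, Set.ncard_univ, Nat.card_fin] at *
        omega
      refine H.MP_f63b47_lc.no_cycle hL hLJ (fun k => (g (c.getVert (k % c.length))).1)
        (fun k => (g _).2) (fun k => by simp) (fun k l h1 h2 e => ?_) fun k => ?_
      · have e2 := hc.getVert_injOn' (show k % c.length ≤ c.length - 1 by have := lt k; omega)
          (show l % c.length ≤ c.length - 1 by have := lt l; omega) (g.injective (Subtype.ext e))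
        have := Nat.le_of_dvd (by omega) ((Nat.modEq_iff_dvd' h1.le).1 e2)
        omega
      · have a := c.adj_getVert_succ (lt k)
        have b : c.getVert (k % c.length + 1) = c.getVert ((k + 1) % c.length) := by
          rw [← Nat.mod_add_mod]
          rcases (Nat.succ_le_of_lt (lt k)).lt_or_eq with h | h
          · rw [Nat.mod_eq_of_lt h]
          · rw [show k % c.length + 1 = c.length from h]; simp
        rw [b] at a
        exact g.toHom.map_rel a
  exact NPHard.of_sat3 (fun φ => ⟨_, free (H.MP_2e8011_lc.psi φ)⟩)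
    (PT.subtype ((H.MP_2e8011_lc.pt_gr _ J).comp H.MP_2e8011_lc.pt_psi) _)
    (H.MP_2e8011_lc.red J (by omega))

end Pool.Agent.Results.MP_f63b47_lc.Families
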